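import Mathlib

set_option autoImplicit false

namespace Pool.Agent.MP_f4617e_lc_h3

/-- `f` is a code with `M` messages of length `n` over the alphabet `Fin q` correcting `t` localized
errors: `f m E` is the word sent for the message `m` when errors may occur only in the positions of
`E`; for distinct messages and any two sets `E`, `E'` of at most `t` positions, no word `y` agrees
with `f m E` outside `E` and also with `f m' E'` outside `E'`. -/
def Corrects {n q M : ℕ} (t : ℕ) (f : Fin M → Finset (Fin n) → Fin n → Fin q) : Prop :=
  ∀ m m' : Fin M, m ≠ m' → ∀ E E' : Finset (Fin n), E.card ≤ t → E'.card ≤ t →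
    ¬ ∃ y : Fin n → Fin q, (∀ i, i ∉ E → y i = f m E i) ∧ (∀ i, i ∉ E' → y i = f m' E' i)

end Pool.Agent.MP_f4617e_lc_h3
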