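import Mathlib
import Pool.Agent.Lib.MP_f4617e_lc_h3.Defs

set_option autoImplicit false

namespace Pool.Agent.MP_f4617e_lc_h3

open Finset

set_option linter.unusedSectionVars false

variable {n : ℕ} [NeZero n]

lemma cast_bij : Function.Bijective (fun i : Fin n => ((i : ℕ) : ZMod n)) := by
  rw [Fintype.bijective_iff_injective_and_card]
  refine ⟨fun i j h => ?_, by simp [ZMod.card]⟩
  have := (ZMod.natCast_eq_natCast_iff' _ _ _).1 h
  rw [Nat.mod_eq_of_lt i.2, Nat.mod_eq_of_lt j.2] at this
  exact Fin.ext this

lemma sum_range_cast {A : Type*} [AddCommMonoid A] (g : ZMod n → A) :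
    ∑ i ∈ range n, g (i : ZMod n) = ∑ u, g u := by
  rw [Finset.sum_range (fun i => g (i : ZMod n))]
  exact Fintype.sum_bijective _ cast_bij _ _ (fun _ => rfl)

/-- The number of clean positions among the `j` positions before `v`. -/
def S (E : Finset (ZMod n)) (v : ZMod n) (j : ℕ) : ℕ :=
  ∑ i ∈ range j, if v - 1 - (i : ZMod n) ∈ E then 0 else 1

lemma S_zero (E : Finset (ZMod n)) (v : ZMod n) : S E v 0 = 0 := rfl

lemma S_succ (E : Finset (ZMod n)) (v : ZMod n) (j : ℕ) :
    S E v (j + 1) = S E v j + if v - 1 - (j : ZMod n) ∈ E then 0 else 1 :=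
  Finset.sum_range_succ _ _

lemma S_add (E : Finset (ZMod n)) (v : ZMod n) (j k : ℕ) :
    S E v (j + k) = S E v j + S E (v - j) k := by
  unfold S
  rw [Finset.sum_range_add]
  congr 1
  apply Finset.sum_congr rfl
  intro i _
  have : v - 1 - ((j + i : ℕ) : ZMod n) = v - j - 1 - i := by push_cast; ring
  rw [this]

lemma S_full (E : Finset (ZMod n)) (v : ZMod n) : S E v n + E.card = n := by
  have h1 : S E v n = ∑ u : ZMod n, if u ∈ E then 0 else 1 := by
    unfold S
    rw [sum_range_cast (fun i : ZMod n => if v - 1 - i ∈ E then 0 else 1)]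
    exact Fintype.sum_equiv (Equiv.subLeft (v - 1)) _ _ (fun _ => rfl)
  have h2 : ∑ u : ZMod n, ((if u ∈ E then 0 else 1) + (if u ∈ E then 1 else 0)) = n := by
    have : ∀ u : ZMod n, ((if u ∈ E then 0 else 1) + (if u ∈ E then 1 else 0)) = 1 := by
      intro u; split_ifs <;> rfl
    simp only [this, Finset.sum_const, Finset.card_univ, ZMod.card, smul_eq_mul, mul_one]
  rw [Finset.sum_add_distrib] at h2
  have h3 : ∑ u : ZMod n, (if u ∈ E then 1 else 0) = E.card := by
    rw [Finset.sum_ite_mem, Finset.univ_inter, Finset.sum_const, smul_eq_mul, mul_one]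
  omega

/-- The distance from `v` back to its reporter. -/
noncomputable def lam (E : Finset (ZMod n)) (v : ZMod n) : ℕ := sInf {j | 1 ≤ j ∧ j ≤ 2 * S E v j}

lemma lam_nonempty {E : Finset (ZMod n)} (hE : 2 * E.card < n) (v : ZMod n) :
    {j | 1 ≤ j ∧ j ≤ 2 * S E v j}.Nonempty := by
  refine ⟨n, ?_, ?_⟩
  · have := NeZero.ne n; omega
  · have := S_full E v; omega

lemma lam_spec {E : Finset (ZMod n)} (hE : 2 * E.card < n) (v : ZMod n) :
    1 ≤ lam E v ∧ lam E v ≤ 2 * S E v (lam E v) := Nat.sInf_mem (lam_nonempty hE v)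

lemma lam_min {E : Finset (ZMod n)} {v : ZMod n} {j : ℕ} (h1 : 1 ≤ j) (h2 : j < lam E v) :
    2 * S E v j < j := by
  by_contra h
  push Not at h
  exact absurd (Nat.sInf_le (show j ∈ {j | 1 ≤ j ∧ j ≤ 2 * S E v j} from ⟨h1, h⟩)) (not_le.2 h2)

lemma lam_le {E : Finset (ZMod n)} {v : ZMod n} {j : ℕ} (h1 : 1 ≤ j) (h2 : j ≤ 2 * S E v j) :
    lam E v ≤ j := Nat.sInf_le (show j ∈ {j | 1 ≤ j ∧ j ≤ 2 * S E v j} from ⟨h1, h2⟩)

/-- The reporter is clean; and in the case `lam ≥ 2` there is equality. -/
lemma rep_clean {E : Finset (ZMod n)} (hE : 2 * E.card < n) (v : ZMod n) :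
    v - (lam E v : ZMod n) ∉ E ∧ (2 ≤ lam E v → 2 * S E v (lam E v) = lam E v) := by
  obtain ⟨h1, h2⟩ := lam_spec hE v
  obtain ⟨k, hk⟩ : ∃ k, lam E v = k + 1 := ⟨lam E v - 1, by omega⟩
  have h3 := S_succ E v k
  have e : v - 1 - (k : ZMod n) = v - ((k + 1 : ℕ) : ZMod n) := by push_cast; ring
  rw [e, ← hk] at h3
  have h4 : 2 * S E v k ≤ k := by
    rcases Nat.eq_zero_or_pos k with rfl | hk0
    · rw [S_zero]
    · exact (lam_min hk0 (by omega)).le
  have h5 : 2 ≤ lam E v → 2 * S E v k < k := fun h => lam_min (by omega) (by omega)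
  by_cases hc : v - (lam E v : ZMod n) ∈ E
  · rw [if_pos hc] at h3
    omega
  · rw [if_neg hc] at h3
    refine ⟨hc, fun h => ?_⟩
    have := h5 h
    omega

/-- The slot in which the status of `v` is reported. -/
noncomputable def slot (E : Finset (ZMod n)) (v : ZMod n) : ZMod n × Bool :=
  (v - (lam E v : ZMod n), decide (2 ≤ lam E v))

lemma slot_injective {E : Finset (ZMod n)} (hE : 2 * E.card < n) :
    Function.Injective (slot E) := by
  have key : ∀ v₁ v₂ : ZMod n, v₁ - (lam E v₁ : ZMod n) = v₂ - (lam E v₂ : ZMod n) →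
      2 ≤ lam E v₁ → ¬ lam E v₁ < lam E v₂ := by
    intro v₁ v₂ h h1 hlt
    obtain ⟨j, hj⟩ : ∃ j, lam E v₂ = j + lam E v₁ := ⟨lam E v₂ - lam E v₁, by omega⟩
    have e : v₂ - (j : ZMod n) = v₁ := by
      rw [hj] at h
      push_cast at h
      linear_combination -h
    have h2 := S_add E v₂ j (lam E v₁)
    rw [e, ← hj] at h2
    have h3 := (rep_clean hE v₁).2 h1
    have h4 : 2 * S E v₂ j < j := lam_min (by omega) (by omega)
    have h5 := (lam_spec hE v₂).2
    omega
  intro v₁ v₂ h
  have h1 : v₁ - (lam E v₁ : ZMod n) = v₂ - (lam E v₂ : ZMod n) := congrArg Prod.fst h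
  have h2 : decide (2 ≤ lam E v₁) = decide (2 ≤ lam E v₂) := congrArg Prod.snd h
  rw [decide_eq_decide] at h2
  have h3 := lam_spec hE v₁
  have h4 := lam_spec hE v₂
  have heq : lam E v₁ = lam E v₂ := by
    by_cases h5 : 2 ≤ lam E v₁
    · have := key v₁ v₂ h1 h5
      have := key v₂ v₁ h1.symm (h2.1 h5)
      omega
    · have : ¬ 2 ≤ lam E v₂ := fun h => h5 (h2.2 h)
      omega
  rw [heq] at h1
  exact sub_left_injective h1

/-! ### The cycle lemma -/

/-- If the sum of `f` over the circle is positive, some starting point has all partial sums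
positive. -/
lemma cycle_lemma (f : ZMod n → ℤ) (hf : 0 < ∑ u, f u) :
    ∃ w : ℕ, ∀ k : ℕ, 1 ≤ k → 0 < ∑ i ∈ range k, f ((w + i : ℕ) : ZMod n) := by
  set a : ℕ → ℤ := fun N => ∑ i ∈ range N, f (i : ZMod n) with ha
  have hper : ∀ N, a (N + n) = a N + ∑ u, f u := by
    intro N
    induction N with
    | zero => simp only [ha, zero_add, Finset.range_zero, Finset.sum_empty]; exact sum_range_cast f
    | succ N ih =>
      have h1 : a (N + 1 + n) = a (N + n) + f (N : ZMod n) := by
        simp only [ha]
        rw [show N + 1 + n = N + n + 1 by ring, Finset.sum_range_succ]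
        congr 2
        push_cast
        simp
      have h2 : a (N + 1) = a N + f (N : ZMod n) := Finset.sum_range_succ _ _
      rw [h1, h2, ih]
      ring
  have hmul : ∀ q N, a (N + q * n) = a N + q * ∑ u, f u := by
    intro q
    induction q with
    | zero => intro N; simp
    | succ q ih =>
      intro N
      rw [show N + (q + 1) * n = (N + q * n) + n by ring, hper, ih]
      push_cast
      ring
  -- a lower bound for the values on the first period
  obtain ⟨B, hB⟩ : ∃ B : ℤ, ∀ N < n, B ≤ a N := by
    obtain ⟨x, hx, hmin⟩ := Finset.exists_min_image (range n) a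
      (Finset.nonempty_range_iff.2 (NeZero.ne n))
    exact ⟨a x, fun N hN => hmin N (Finset.mem_range.2 hN)⟩
  have hbig : ∀ N, N / n > B.natAbs → 0 < a N := by
    intro N hN
    have h1 : a N = a (N % n) + (N / n : ℕ) * ∑ u, f u := by
      rw [← hmul, mul_comm (N / n) n, Nat.mod_add_div]
    have h2 := hB (N % n) (Nat.mod_lt _ (Nat.pos_of_ne_zero (NeZero.ne n)))
    have h3 : ((N / n : ℕ) : ℤ) ≤ (N / n : ℕ) * ∑ u, f u := by
      have : (1 : ℤ) ≤ ∑ u, f u := hf
      nlinarith [Int.natCast_nonneg (N / n)]
    omega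
  set N₀ := n * (B.natAbs + 1) with hN₀
  set w := Nat.findGreatest (fun N => a N ≤ 0) N₀ with hw
  have hw0 : a w ≤ 0 := by
    apply Nat.findGreatest_spec (P := fun N => a N ≤ 0) (Nat.zero_le N₀)
    simp [ha]
  have hgt : ∀ N, w < N → 0 < a N := by
    intro N hN
    rcases le_or_gt N N₀ with h | h
    · have := Nat.findGreatest_is_greatest hN h
      simpa using this
    · apply hbig
      have : B.natAbs + 1 ≤ N / n := by
        rw [Nat.le_div_iff_mul_le (Nat.pos_of_ne_zero (NeZero.ne n)), mul_comm]
        exact h.le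
      omega
  refine ⟨w, fun k hk => ?_⟩
  have h1 : a (w + k) = a w + ∑ i ∈ range k, f ((w + i : ℕ) : ZMod n) :=
    Finset.sum_range_add _ _ _
  have h2 := hgt (w + k) (by omega)
  omega

/-! ### Configurations -/

variable {a b r : ℕ}

open Classical in
/-- The digits allowed in a slot. -/
noncomputable def allowed (a b : ℕ) (E : Finset (ZMod n)) (p : ZMod n × Bool) : Finset (Fin b) :=
  if p.1 ∈ E then univ.filter (fun d => d.val = 0)
  else if p ∈ E.image (slot E) then univ.filter (fun d => d.val < a)
  else if p ∈ Eᶜ.image (slot E) then univ.filter (fun d => a ≤ d.val)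
  else univ

/-- The static parts allowed in a position. -/
def allowedS (r : ℕ) (E : Finset (ZMod n)) (u : ZMod n) : Finset (Fin r) :=
  if u ∈ E then univ.filter (fun d => d.val = 0) else univ

/-- The set of all configurations. -/
noncomputable def conf (a b r : ℕ) (E : Finset (ZMod n)) :
    Finset ((ZMod n × Bool → Fin b) × (ZMod n → Fin r)) :=
  Fintype.piFinset (allowed a b E) ×ˢ Fintype.piFinset (allowedS r E)

lemma card_filter_zero (hb : 0 < b) : (univ.filter (fun d : Fin b => d.val = 0)).card = 1 := by
  rw [Finset.card_eq_one]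
  refine ⟨⟨0, hb⟩, ?_⟩
  ext d
  simp [Fin.ext_iff]

lemma card_filter_lt (hab : a ≤ b) : (univ.filter (fun d : Fin b => d.val < a)).card = a := by
  rw [Fin.card_filter_val_lt, min_eq_right hab]

lemma card_filter_ge (hab : a ≤ b) : (univ.filter (fun d : Fin b => a ≤ d.val)).card = b - a := by
  have h1 := card_filter_lt hab
  have h2 := Finset.card_filter_add_card_filter_not (s := (univ : Finset (Fin b)))
    (fun d : Fin b => d.val < a)
  simp only [not_lt, Finset.card_univ, Fintype.card_fin] at h2
  omega

lemma card_conf {E : Finset (ZMod n)} {t : ℕ} (hE : E.card = t) (ht : 2 * t < n)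
    (hab : a < b) (hr : 0 < r) :
    (conf a b r E).card = r ^ (n - t) * b ^ (n - 2 * t) * a ^ t * (b - a) ^ (n - t) := by
  classical
  have hE2 : 2 * E.card < n := by omega
  have hinj := slot_injective hE2
  have hclean : ∀ v, (slot E v).1 ∉ E := fun v => (rep_clean hE2 v).1
  set A : Finset (ZMod n × Bool) := E ×ˢ univ with hA
  set B := E.image (slot E) with hB
  set C := Eᶜ.image (slot E) with hC
  have hAcard : A.card = 2 * t := by rw [hA, Finset.card_product, hE]; simp [mul_comm]
  have hBcard : B.card = t := by rw [hB, Finset.card_image_of_injective _ hinj, hE]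
  have hCcard : C.card = n - t := by
    rw [hC, Finset.card_image_of_injective _ hinj, Finset.card_compl, ZMod.card, hE]
  have hAB : Disjoint A B := by
    rw [Finset.disjoint_left]
    intro p hp hp'
    rw [hB, Finset.mem_image] at hp'
    obtain ⟨v, _, rfl⟩ := hp'
    rw [hA, Finset.mem_product] at hp
    exact hclean v hp.1
  have hAC : Disjoint A C := by
    rw [Finset.disjoint_left]
    intro p hp hp'
    rw [hC, Finset.mem_image] at hp'
    obtain ⟨v, _, rfl⟩ := hp'
    rw [hA, Finset.mem_product] at hp
    exact hclean v hp.1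
  have hBC : Disjoint B C := by
    rw [Finset.disjoint_left]
    intro p hp hp'
    rw [hB, Finset.mem_image] at hp
    rw [hC, Finset.mem_image] at hp'
    obtain ⟨v, hv, rfl⟩ := hp
    obtain ⟨v', hv', h⟩ := hp'
    rw [hinj h, Finset.mem_compl] at hv'
    exact hv' hv
  set R : Finset (ZMod n × Bool) := (A ∪ B ∪ C)ᶜ with hR
  have hRcard : R.card = n - 2 * t := by
    rw [hR, Finset.card_compl, Finset.card_union_of_disjoint, Finset.card_union_of_disjoint hAB,
      hAcard, hBcard, hCcard, Fintype.card_prod, ZMod.card, Fintype.card_bool]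
    · omega
    · rw [Finset.disjoint_union_left]; exact ⟨hAC, hBC⟩
  have hval : ∀ p : ZMod n × Bool, (allowed a b E p).card =
      (if p ∈ B then a else 1) * (if p ∈ C then b - a else 1) * (if p ∈ R then b else 1) := by
    intro p
    have hpA : p ∈ A ↔ p.1 ∈ E := by rw [hA, Finset.mem_product]; simp
    have hpR : p ∈ R ↔ ¬ (p ∈ A ∨ p ∈ B ∨ p ∈ C) := by
      rw [hR, Finset.mem_compl, Finset.mem_union, Finset.mem_union, or_assoc]
    unfold allowed
    by_cases h1 : p.1 ∈ E
    · have h2 : p ∉ B := Finset.disjoint_left.1 hAB (hpA.2 h1)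
      have h3 : p ∉ C := Finset.disjoint_left.1 hAC (hpA.2 h1)
      have h4 : p ∉ R := by rw [hpR]; simp [hpA.2 h1]
      rw [if_pos h1, if_neg h2, if_neg h3, if_neg h4, card_filter_zero (by omega)]
    · rw [if_neg h1]
      have h1' : p ∉ A := fun h => h1 (hpA.1 h)
      by_cases h2 : p ∈ B
      · have h3 : p ∉ C := Finset.disjoint_left.1 hBC h2
        have h4 : p ∉ R := by rw [hpR]; simp [h2]
        rw [if_pos h2, if_pos h2, if_neg h3, if_neg h4, card_filter_lt hab.le]
        ring
      · rw [if_neg h2]
        by_cases h3 : p ∈ C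
        · have h4 : p ∉ R := by rw [hpR]; simp [h3]
          rw [if_pos h3, if_neg h2, if_pos h3, if_neg h4, card_filter_ge hab.le]
          ring
        · have h4 : p ∈ R := by rw [hpR]; simp [h1', h2, h3]
          rw [if_neg h3, if_neg h2, if_neg h3, if_pos h4, Finset.card_univ, Fintype.card_fin]
          ring
  have hvalS : ∀ u : ZMod n, (allowedS r E u).card = if u ∈ Eᶜ then r else 1 := by
    intro u
    unfold allowedS
    by_cases h : u ∈ E
    · have h' : u ∉ Eᶜ := by rw [Finset.mem_compl]; exact fun h' => h' h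
      rw [if_pos h, if_neg h', card_filter_zero hr]
    · rw [if_neg h, if_pos (Finset.mem_compl.2 h), Finset.card_univ, Fintype.card_fin]
  unfold conf
  rw [Finset.card_product, Fintype.card_piFinset, Fintype.card_piFinset]
  simp only [hval, hvalS, Finset.prod_mul_distrib, Finset.prod_ite_mem, Finset.univ_inter,
    Finset.prod_const, hBcard, hCcard, hRcard, Finset.card_compl, ZMod.card, hE]
  ring

/-- **Separation.** Two configurations which are both consistent with the received word `y` are
equal, and so are their error sets. -/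
lemma separation {α : Type*} {E E' : Finset (ZMod n)} {t : ℕ} (hE : E.card = t)
    (hE' : E'.card = t) (ht : 2 * t < n) (code : Fin b × Fin b × Fin r → α)
    (hcode : Function.Injective code) {c c' : (ZMod n × Bool → Fin b) × (ZMod n → Fin r)}
    (hc : c ∈ conf a b r E) (hc' : c' ∈ conf a b r E') (y : ZMod n → α)
    (hy : ∀ u, u ∉ E → y u = code (c.1 (u, false), c.1 (u, true), c.2 u))
    (hy' : ∀ u, u ∉ E' → y u = code (c'.1 (u, false), c'.1 (u, true), c'.2 u)) :
    E = E' ∧ c = c' := by
  classical
  have hE2 : 2 * E.card < n := by omega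
  have hE2' : 2 * E'.card < n := by omega
  unfold conf at hc hc'
  rw [Finset.mem_product, Fintype.mem_piFinset, Fintype.mem_piFinset] at hc hc'
  -- digits agree at positions clean in both
  have hagree : ∀ u, u ∉ E → u ∉ E' → (∀ β, c.1 (u, β) = c'.1 (u, β)) ∧ c.2 u = c'.2 u := by
    intro u h1 h2
    have h3 := hcode ((hy u h1).symm.trans (hy' u h2))
    simp only [Prod.mk.injEq] at h3
    refine ⟨fun β => ?_, h3.2.2⟩
    cases β
    · exact h3.1
    · exact h3.2.1
  -- the cycle lemma
  set f : ZMod n → ℤ := fun u => 1 - (if u ∈ E then 1 else 0) - (if u ∈ E' then 1 else 0) with hf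
  have hfsum : 0 < ∑ u, f u := by
    simp only [hf, Finset.sum_sub_distrib, Finset.sum_const, Finset.card_univ, ZMod.card,
      Finset.sum_ite_mem, Finset.univ_inter, hE, hE', nsmul_eq_mul, mul_one]
    omega
  obtain ⟨w, hw⟩ := cycle_lemma f hfsum
  have main : ∀ k : ℕ, ((w + k : ℕ) : ZMod n) ∈ E ↔ ((w + k : ℕ) : ZMod n) ∈ E' := by
    intro k
    induction k using Nat.strong_induction_on with
    | _ k ih =>
      rcases Nat.eq_zero_or_pos k with rfl | hk
      · have h1 := hw 1 le_rfl
        rw [Finset.sum_range_one] at h1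
        simp only [hf] at h1
        by_cases h2 : ((w + 0 : ℕ) : ZMod n) ∈ E <;> by_cases h3 : ((w + 0 : ℕ) : ZMod n) ∈ E' <;>
          simp only [h2, h3, if_true, if_false] at h1 ⊢ <;> omega
      set v : ZMod n := ((w + k : ℕ) : ZMod n) with hv
      have hpos : ∀ i < k, v - 1 - (i : ZMod n) = ((w + (k - 1 - i) : ℕ) : ZMod n) := by
        intro i hi
        have : w + k = (w + (k - 1 - i)) + 1 + i := by omega
        rw [hv, this]
        push_cast
        ring
      have hS : ∀ j ≤ k, S E v j = S E' v j := by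
        intro j hj
        unfold S
        apply Finset.sum_congr rfl
        intro i hi
        rw [Finset.mem_range] at hi
        rw [hpos i (by omega)]
        have := ih (k - 1 - i) (by omega)
        by_cases h2 : ((w + (k - 1 - i) : ℕ) : ZMod n) ∈ E
        · rw [if_pos h2, if_pos (this.1 h2)]
        · rw [if_neg h2, if_neg (fun h => h2 (this.2 h))]
      have hSk : k ≤ 2 * S E v k := by
        have h1 := hw k hk
        have h2 : ∑ i ∈ range k, f ((w + i : ℕ) : ZMod n) = 2 * (S E v k : ℤ) - k := by
          rw [← Finset.sum_range_reflect]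
          have h4 : (S E v k : ℤ) =
              ∑ i ∈ range k, (if v - 1 - (i : ZMod n) ∈ E then (0 : ℤ) else 1) := by
            unfold S; push_cast; rfl
          have h5 : ∀ i ∈ range k, f ((w + (k - 1 - i) : ℕ) : ZMod n) =
              2 * (if v - 1 - (i : ZMod n) ∈ E then (0 : ℤ) else 1) - 1 := by
            intro i hi
            rw [Finset.mem_range] at hi
            rw [hpos i hi]
            have := ih (k - 1 - i) (by omega)
            simp only [hf]
            by_cases h2 : ((w + (k - 1 - i) : ℕ) : ZMod n) ∈ E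
            · rw [if_pos h2, if_pos (this.1 h2), if_pos h2]; norm_num
            · rw [if_neg h2, if_neg (fun h => h2 (this.2 h)), if_neg h2]; norm_num
          rw [Finset.sum_congr rfl h5, Finset.sum_sub_distrib, ← Finset.mul_sum, ← h4]
          simp
        omega
      have hlk : lam E v ≤ k := lam_le hk hSk
      have hlk' : lam E' v ≤ k := lam_le hk (by rw [← hS k le_rfl]; exact hSk)
      have hlam : lam E v = lam E' v := by
        apply le_antisymm
        · have := lam_spec hE2' v
          exact lam_le this.1 (by rw [hS _ hlk']; exact this.2)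
        · have := lam_spec hE2 v
          exact lam_le this.1 (by rw [← hS _ hlk]; exact this.2)
      have hslot : slot E v = slot E' v := by unfold slot; rw [hlam]
      have hcl := (rep_clean hE2 v).1
      have hcl' := (rep_clean hE2' v).1
      have hdig : c.1 (slot E v) = c'.1 (slot E v) := by
        have := (hagree _ hcl (by rw [hlam]; exact hcl')).1 (decide (2 ≤ lam E v))
        exact this
      have hd := hc.1 (slot E v)
      have hd' := hc'.1 (slot E' v)
      rw [← hslot, ← hdig] at hd'
      unfold allowed at hd hd'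
      rw [if_neg (show (slot E v).1 ∉ E from hcl)] at hd
      rw [if_neg (show (slot E v).1 ∉ E' by rw [hslot]; exact hcl')] at hd'
      by_cases h2 : v ∈ E <;> by_cases h3 : v ∈ E'
      · simp [h2, h3]
      · exfalso
        have q1 : slot E v ∈ E.image (slot E) := Finset.mem_image_of_mem _ h2
        have q2 : slot E v ∈ E'ᶜ.image (slot E') := by
          rw [hslot]; exact Finset.mem_image_of_mem _ (Finset.mem_compl.2 h3)
        have q3 : slot E v ∉ E'.image (slot E') := by
          intro h
          obtain ⟨v', hv', h⟩ := Finset.mem_image.1 h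
          rw [hslot] at h
          exact h3 (slot_injective hE2' h ▸ hv')
        rw [if_pos q1, Finset.mem_filter] at hd
        rw [if_neg q3, if_pos q2, Finset.mem_filter] at hd'
        omega
      · exfalso
        have q1 : slot E v ∈ E'.image (slot E') := by
          rw [hslot]; exact Finset.mem_image_of_mem _ h3
        have q2 : slot E v ∈ Eᶜ.image (slot E) :=
          Finset.mem_image_of_mem _ (Finset.mem_compl.2 h2)
        have q3 : slot E v ∉ E.image (slot E) := by
          intro h
          obtain ⟨v', hv', h⟩ := Finset.mem_image.1 h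
          exact h2 (slot_injective hE2 h ▸ hv')
        rw [if_neg q3, if_pos q2, Finset.mem_filter] at hd
        rw [if_pos q1, Finset.mem_filter] at hd'
        omega
      · simp [h2, h3]
  have hEE : E = E' := by
    ext u
    have h1 := main (u - (w : ZMod n)).val
    have h2 : ((w + (u - (w : ZMod n)).val : ℕ) : ZMod n) = u := by
      push_cast
      rw [ZMod.natCast_zmod_val]
      ring
    rwa [h2] at h1
  subst hEE
  have hzero : ∀ (m : ℕ) (d d' : Fin m), d.val = 0 → d'.val = 0 → d = d' := by
    intro m d d' h h'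
    exact Fin.ext (h.trans h'.symm)
  refine ⟨rfl, Prod.ext ?_ ?_⟩
  · funext p
    by_cases h : p.1 ∈ E
    · have h1 := hc.1 p
      have h2 := hc'.1 p
      unfold allowed at h1 h2
      rw [if_pos h, Finset.mem_filter] at h1 h2
      exact hzero _ _ _ h1.2 h2.2
    · exact (hagree p.1 h h).1 p.2
  · funext u
    by_cases h : u ∈ E
    · have h1 := hc.2 u
      have h2 := hc'.2 u
      unfold allowedS at h1 h2
      rw [if_pos h, Finset.mem_filter] at h1 h2
      exact hzero _ _ _ h1.2 h2.2
    · exact (hagree u h h).2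

end Pool.Agent.MP_f4617e_lc_h3
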