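import Mathlib
import Pool.Agent.Lib.MP_f4617e_lc_h3.Lifo

set_option autoImplicit false

namespace Pool.Agent.MP_f4617e_lc_h3

open Finset

/-- The explicit bound. -/
theorem lifo_main (q n t a b r : ℕ) (ha : 1 ≤ a) (hab : a < b) (hr : 1 ≤ r) (hq : b ^ 2 * r ≤ q)
    (ht : 2 * t < n) :
    ∃ f : Fin (r ^ (n - t) * b ^ (n - 2 * t) * a ^ t * (b - a) ^ (n - t)) →
      Finset (Fin n) → Fin n → Fin q, Corrects t f := by
  classical
  have : NeZero n := ⟨by omega⟩
  set M := r ^ (n - t) * b ^ (n - 2 * t) * a ^ t * (b - a) ^ (n - t) with hM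
  obtain ⟨code⟩ : Nonempty (Fin b × Fin b × Fin r ↪ Fin q) := by
    apply Function.Embedding.nonempty_of_card_le
    simp only [Fintype.card_prod, Fintype.card_fin]
    calc b * (b * r) = b ^ 2 * r := by ring
      _ ≤ q := hq
  have hq0 : 0 < q := by
    have : 0 < b ^ 2 * r := by
      have : 0 < b := by omega
      positivity
    omega
  let e : Fin n ≃ ZMod n := Equiv.ofBijective _ cast_bij
  -- messages for exact error sets
  have hg : ∀ P : Finset (ZMod n), P.card = t →
      ∃ g : Fin M → (ZMod n × Bool → Fin b) × (ZMod n → Fin r),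
        Function.Injective g ∧ ∀ m, g m ∈ conf a b r P := by
    intro P hP
    have hc := card_conf (a := a) (b := b) (r := r) hP ht hab (by omega)
    refine ⟨fun m => ((Finset.equivFinOfCardEq hc).symm m).1, ?_, ?_⟩
    · intro m m' h
      exact (Finset.equivFinOfCardEq hc).symm.injective (Subtype.ext h)
    · intro m
      exact ((Finset.equivFinOfCardEq hc).symm m).2
  choose g hginj hgmem using hg
  -- exact supersets
  have hP : ∀ E : Finset (Fin n), E.card ≤ t → ∃ P : Finset (ZMod n), P.card = t ∧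
      ∀ i, e i ∉ P → i ∉ E := by
    intro E hE
    obtain ⟨P, hEP, hPc⟩ := Finset.exists_superset_card_eq (s := E.map e.toEmbedding) (n := t)
      (by rw [Finset.card_map]; exact hE) (by rw [ZMod.card]; omega)
    refine ⟨P, hPc, fun i hi hiE => hi (hEP ?_)⟩
    rw [Finset.mem_map]
    exact ⟨i, hiE, rfl⟩
  choose P hPc hPE using hP
  refine ⟨fun m E i => if h : E.card ≤ t then
    code ((g (P E h) (hPc E h) m).1 (e i, false), (g (P E h) (hPc E h) m).1 (e i, true),
      (g (P E h) (hPc E h) m).2 (e i)) else ⟨0, hq0⟩, ?_⟩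
  rintro m m' hmm E E' hE hE' ⟨y, hy, hy'⟩
  have h1 : ∀ u, u ∉ P E hE → y (e.symm u) = code ((g (P E hE) (hPc E hE) m).1 (u, false),
      (g (P E hE) (hPc E hE) m).1 (u, true), (g (P E hE) (hPc E hE) m).2 u) := by
    intro u hu
    have h := hy (e.symm u) (hPE E hE _ (by rwa [Equiv.apply_symm_apply]))
    rw [h]
    simp only [dif_pos hE, Equiv.apply_symm_apply]
  have h2 : ∀ u, u ∉ P E' hE' → y (e.symm u) = code ((g (P E' hE') (hPc E' hE') m').1 (u, false),
      (g (P E' hE') (hPc E' hE') m').1 (u, true), (g (P E' hE') (hPc E' hE') m').2 u) := by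
    intro u hu
    have h := hy' (e.symm u) (hPE E' hE' _ (by rwa [Equiv.apply_symm_apply]))
    rw [h]
    simp only [dif_pos hE', Equiv.apply_symm_apply]
  obtain ⟨h3, h4⟩ := separation (hPc E hE) (hPc E' hE') ht code code.injective
    (hgmem _ (hPc E hE) m) (hgmem _ (hPc E' hE') m') (fun u => y (e.symm u)) h1 h2
  apply hmm
  apply hginj (P E hE) (hPc E hE)
  rw [h4]
  congr 1
  · exact h3.symm ▸ rfl

/-- The `q`-ary entropy function `- τ log_q τ - (1 - τ) log_q (1 - τ)`. -/
noncomputable def entropy (q : ℕ) (τ : ℝ) : ℝ :=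
  -(τ * Real.logb q τ) - (1 - τ) * Real.logb q (1 - τ)

/-- The rate obtained for `q = b² r` and `τ = a / b`. -/
theorem lifo_rate (n a b r : ℕ) (ha : 1 ≤ a) (hab : 2 * a < b) (hr : 1 ≤ r) (hn : 1 ≤ n) :
    ∃ (M : ℕ) (f : Fin M → Finset (Fin n) → Fin n → Fin (b ^ 2 * r)),
      Corrects ⌊(a / b : ℝ) * n⌋₊ f ∧
      1 - (a / b : ℝ) - entropy (b ^ 2 * r) (a / b) ≤
        Real.logb (b ^ 2 * r : ℕ) M / n := by
  have hb0 : (0 : ℝ) < b := by
    have : 0 < b := by omega
    exact_mod_cast this
  have ha0 : (0 : ℝ) < a := by exact_mod_cast ha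
  have hr0 : (0 : ℝ) < r := by exact_mod_cast hr
  have hn0 : (0 : ℝ) < n := by exact_mod_cast hn
  have hab' : 2 * (a : ℝ) < b := by exact_mod_cast hab
  set τ : ℝ := a / b with hτ
  have hτ0 : 0 < τ := by positivity
  have hτ1 : 2 * τ < 1 := by
    rw [hτ, mul_div_assoc', div_lt_one hb0]; exact hab'
  set t := ⌊τ * n⌋₊ with ht
  have ht1 : (t : ℝ) ≤ τ * n := Nat.floor_le (by positivity)
  have ht2 : 2 * t < n := by
    have : 2 * (t : ℝ) < n := by nlinarith
    exact_mod_cast this
  obtain ⟨f, hf⟩ := lifo_main (b ^ 2 * r) n t a b r ha (by omega) hr le_rfl ht2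
  refine ⟨_, f, hf, ?_⟩
  rw [le_div_iff₀ hn0]
  unfold entropy Real.logb
  -- logarithms
  set L : ℝ := Real.log ((b ^ 2 * r : ℕ) : ℝ) with hL
  have hLpos : 0 < L := by
    rw [hL]
    apply Real.log_pos
    have : 1 < b ^ 2 * r := by
      have h1 : 1 < b ^ 2 := by
        have : 2 ≤ b := by omega
        nlinarith
      calc 1 < b ^ 2 * 1 := by omega
        _ ≤ b ^ 2 * r := Nat.mul_le_mul_left _ hr
    exact_mod_cast this
  have hba0 : (0 : ℝ) < (b : ℝ) - a := by linarith
  have hLval : L = 2 * Real.log b + Real.log r := by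
    rw [hL]
    push_cast
    rw [Real.log_mul (by positivity) (by positivity), Real.log_pow]
    push_cast
    ring
  have hlogM : Real.log ((r ^ (n - t) * b ^ (n - 2 * t) * a ^ t * (b - a) ^ (n - t) : ℕ) : ℝ) =
      (n - t) * Real.log r + (n - 2 * t) * Real.log b + t * Real.log a +
        (n - t) * Real.log (b - a) := by
    have e1 : ((n - t : ℕ) : ℝ) = n - t := by
      rw [Nat.cast_sub (by omega)]
    have e2 : ((n - 2 * t : ℕ) : ℝ) = n - 2 * t := by
      rw [Nat.cast_sub (by omega)]; push_cast; ring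
    have e3 : ((b - a : ℕ) : ℝ) = b - a := by
      rw [Nat.cast_sub (by omega)]
    push_cast
    rw [e3, Real.log_mul (by positivity) (by positivity), Real.log_mul (by positivity)
      (by positivity), Real.log_mul (by positivity) (by positivity), Real.log_pow, Real.log_pow,
      Real.log_pow, Real.log_pow, e1, e2]
  have hτlog : Real.log τ = Real.log a - Real.log b := Real.log_div ha0.ne' hb0.ne'
  have h1τ : 1 - τ = ((b : ℝ) - a) / b := by rw [hτ]; field_simp
  have h1τlog : Real.log (1 - τ) = Real.log (b - a) - Real.log b := by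
    rw [h1τ, Real.log_div hba0.ne' hb0.ne']
  rw [hlogM, hτlog, h1τlog]
  have hkey : (1 - τ - (-(τ * ((Real.log a - Real.log b) / L)) -
      (1 - τ) * ((Real.log (b - a) - Real.log b) / L))) * n * L =
      n * ((1 - τ) * Real.log r + (1 - 2 * τ) * Real.log b + τ * Real.log a +
        (1 - τ) * Real.log (b - a)) := by
    field_simp
    rw [hLval]
    ring
  have hpos : 0 ≤ Real.log r + 2 * Real.log b - Real.log a + Real.log (b - a) := by
    have h1 : 0 ≤ Real.log r := Real.log_nonneg (by exact_mod_cast hr)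
    have h2 : Real.log a ≤ Real.log b := Real.log_le_log ha0 (by linarith)
    have h3 : 0 ≤ Real.log b := Real.log_nonneg (by linarith [show (1 : ℝ) ≤ a by exact_mod_cast ha])
    have h4 : 0 ≤ Real.log ((b : ℝ) - a) :=
      Real.log_nonneg (by linarith [show (1 : ℝ) ≤ a by exact_mod_cast ha])
    linarith
  rw [le_div_iff₀ hLpos, hkey]
  nlinarith [mul_nonneg (sub_nonneg.2 ht1) hpos]

end Pool.Agent.MP_f4617e_lc_h3
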